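import Pool.Agent.Lib.MP_c1f5fe_lc.Main

namespace Pool.Agent.Results.MP_c1f5fe_lc.BcFPT

theorem result : Pool.Agent.Lib.MP_c1f5fe_lc.FPT := Pool.Agent.Lib.MP_c1f5fe_lc.main_fpt

end Pool.Agent.Results.MP_c1f5fe_lc.BcFPT
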